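import Pool.Agent.Lib.MP_9bfa98_an.Defs

set_option autoImplicit false

open Complex Filter Topology
open scoped ComplexConjugate

namespace Pool.Agent.Lib.MP_9bfa98_an

section general
variable {ι : Type*} (s : Finset ι) (w : ι → ℂ)

/-- `A z = ∏ (z - w k)`. -/
noncomputable def Afun (z : ℂ) : ℂ := ∏ k ∈ s, (z - w k)

/-- `B z = ∏ (z - conj (w k))`. -/
noncomputable def Bfun (z : ℂ) : ℂ := ∏ k ∈ s, (z - conj (w k))

/-- The Nevanlinna function `a + b i (B + A) / (B - A)`; for `a = 0`, `b = 1` its Cayley transform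
is the finite Blaschke product with zeros `w k`. -/
noncomputable def mfun (a b : ℝ) (z : ℂ) : ℂ :=
  (b * (I * (Bfun s w z + Afun s w z)) + a * (Bfun s w z - Afun s w z)) /
    (Bfun s w z - Afun s w z)

/-- The argument of the Blaschke product on the real line. -/
noncomputable def Theta (x : ℝ) : ℝ :=
  ∑ k ∈ s, (2 * Real.arctan ((x - (w k).re) / (w k).im) + Real.pi)

lemma prod_lt_prod_aux (f g : ι → ℝ) (hs : s.Nonempty) (hf : ∀ k ∈ s, 0 ≤ f k)
    (hfg : ∀ k ∈ s, f k < g k) : ∏ k ∈ s, f k < ∏ k ∈ s, g k := by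
  by_cases h : ∃ k ∈ s, f k = 0
  · obtain ⟨k, hk, hk0⟩ := h
    rw [Finset.prod_eq_zero hk hk0]
    exact Finset.prod_pos fun i hi => lt_of_le_of_lt (hf i hi) (hfg i hi)
  · push Not at h
    exact Finset.prod_lt_prod_of_nonempty (fun i hi => lt_of_le_of_ne (hf i hi) (h i hi).symm)
      hfg hs

lemma norm_sub_sq_diff (z v : ℂ) : ‖z - conj v‖ ^ 2 - ‖z - v‖ ^ 2 = 4 * z.im * v.im := by
  rw [← Complex.normSq_eq_norm_sq, ← Complex.normSq_eq_norm_sq, Complex.normSq_apply,
    Complex.normSq_apply]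
  simp only [sub_re, sub_im, conj_re, conj_im]
  ring

lemma norm_lt_upper (z v : ℂ) (hz : 0 < z.im) (hv : 0 < v.im) : ‖z - v‖ < ‖z - conj v‖ := by
  have h := norm_sub_sq_diff z v
  have h2 : 0 < 4 * z.im * v.im := by positivity
  exact lt_of_pow_lt_pow_left₀ 2 (norm_nonneg _) (by linarith)

lemma norm_lt_lower (z v : ℂ) (hz : z.im < 0) (hv : 0 < v.im) : ‖z - conj v‖ < ‖z - v‖ := by
  have h := norm_sub_sq_diff z v
  have h2 : 4 * z.im * v.im < 0 := by nlinarith
  exact lt_of_pow_lt_pow_left₀ 2 (norm_nonneg _) (by linarith)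

lemma AB_upper (hs : s.Nonempty) (hw : ∀ k ∈ s, 0 < (w k).im) (z : ℂ) (hz : 0 < z.im) :
    ‖Afun s w z‖ < ‖Bfun s w z‖ := by
  unfold Afun Bfun
  rw [norm_prod, norm_prod]
  exact prod_lt_prod_aux s _ _ hs (fun k _ => norm_nonneg _)
    fun k hk => norm_lt_upper z _ hz (hw k hk)

lemma AB_lower (hs : s.Nonempty) (hw : ∀ k ∈ s, 0 < (w k).im) (z : ℂ) (hz : z.im < 0) :
    ‖Bfun s w z‖ < ‖Afun s w z‖ := by
  unfold Afun Bfun
  rw [norm_prod, norm_prod]
  exact prod_lt_prod_aux s _ _ hs (fun k _ => norm_nonneg _)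
    fun k hk => norm_lt_lower z _ hz (hw k hk)

lemma mfun_eq (a b : ℝ) (z : ℂ) (h : Bfun s w z - Afun s w z ≠ 0) :
    mfun s w a b z = a + b * (I * (Bfun s w z + Afun s w z) / (Bfun s w z - Afun s w z)) := by
  unfold mfun
  rw [add_div, mul_div_assoc (b : ℂ), mul_div_cancel_right₀ _ h, add_comm]

lemma im_aux (a b : ℂ) (h : b - a ≠ 0) :
    (I * (b + a) / (b - a)).im = (‖b‖ ^ 2 - ‖a‖ ^ 2) / ‖b - a‖ ^ 2 := by
  rw [← Complex.normSq_eq_norm_sq, ← Complex.normSq_eq_norm_sq, ← Complex.normSq_eq_norm_sq,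
    Complex.div_im]
  have h0 : Complex.normSq (b - a) ≠ 0 := by
    rw [Ne, Complex.normSq_eq_zero]; exact h
  simp only [mul_re, mul_im, add_re, add_im, sub_re, sub_im, I_re, I_im]
  field_simp
  rw [Complex.normSq_apply, Complex.normSq_apply]
  ring

lemma mfun_im_upper (a b : ℝ) (hb : 0 < b) (hs : s.Nonempty) (hw : ∀ k ∈ s, 0 < (w k).im)
    (z : ℂ) (hz : 0 < z.im) : 0 < (mfun s w a b z).im := by
  have h := AB_upper s w hs hw z hz
  have hne : Bfun s w z - Afun s w z ≠ 0 := by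
    intro h0
    rw [sub_eq_zero] at h0
    rw [h0] at h
    exact lt_irrefl _ h
  rw [mfun_eq s w a b z hne, Complex.add_im, Complex.ofReal_im, zero_add, Complex.im_ofReal_mul,
    im_aux _ _ hne]
  have h2 : 0 < ‖Bfun s w z - Afun s w z‖ := norm_pos_iff.mpr hne
  have h3 : ‖Afun s w z‖ ^ 2 < ‖Bfun s w z‖ ^ 2 := pow_lt_pow_left₀ h (norm_nonneg _) (by norm_num)
  exact mul_pos hb (div_pos (by linarith) (by positivity))

lemma mfun_im_lower (a b : ℝ) (hb : 0 < b) (hs : s.Nonempty) (hw : ∀ k ∈ s, 0 < (w k).im)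
    (z : ℂ) (hz : z.im < 0) : (mfun s w a b z).im < 0 := by
  have h := AB_lower s w hs hw z hz
  have hne : Bfun s w z - Afun s w z ≠ 0 := by
    intro h0
    rw [sub_eq_zero] at h0
    rw [h0] at h
    exact lt_irrefl _ h
  rw [mfun_eq s w a b z hne, Complex.add_im, Complex.ofReal_im, zero_add, Complex.im_ofReal_mul,
    im_aux _ _ hne]
  have h2 : 0 < ‖Bfun s w z - Afun s w z‖ := norm_pos_iff.mpr hne
  have h3 : ‖Bfun s w z‖ ^ 2 < ‖Afun s w z‖ ^ 2 := pow_lt_pow_left₀ h (norm_nonneg _) (by norm_num)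
  exact mul_neg_of_pos_of_neg hb (div_neg_of_neg_of_pos (by linarith) (by positivity))

lemma factor_eq (x : ℝ) (v : ℂ) (hv : 0 < v.im) :
    (x : ℂ) - v = ((x : ℂ) - conj v) *
      exp ((2 * Real.arctan ((x - v.re) / v.im) + Real.pi : ℝ) * I) := by
  set u : ℝ := (x - v.re) / v.im with hu
  have hx : x - v.re = u * v.im := by rw [hu]; field_simp
  have h1 : exp ((2 * Real.arctan u + Real.pi : ℝ) * I) = - ((1 + u * I) ^ 2 / (1 + u ^ 2)) := by
    have e1 : ((2 * Real.arctan u + Real.pi : ℝ) : ℂ) * I =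
        (Real.arctan u : ℂ) * I + (Real.arctan u : ℂ) * I + Real.pi * I := by
      push_cast; ring
    rw [e1, Complex.exp_add, Complex.exp_add, Complex.exp_pi_mul_I, Complex.exp_mul_I,
      ← Complex.ofReal_cos, ← Complex.ofReal_sin, Real.cos_arctan, Real.sin_arctan]
    have hpos : 0 < 1 + u ^ 2 := by positivity
    have hsq : (Real.sqrt (1 + u ^ 2)) ^ 2 = 1 + u ^ 2 := Real.sq_sqrt hpos.le
    have hsq0 : (Real.sqrt (1 + u ^ 2) : ℂ) ≠ 0 := by
      rw [Ne, Complex.ofReal_eq_zero]; exact (Real.sqrt_pos.mpr hpos).ne'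
    have hsqc : ((Real.sqrt (1 + u ^ 2) : ℝ) : ℂ) ^ 2 = 1 + (u : ℂ) ^ 2 := by
      rw [← Complex.ofReal_pow, hsq]; push_cast; ring
    rw [← hsqc]
    push_cast
    field_simp
  rw [h1]
  have hne : (1 + (u : ℂ) ^ 2) ≠ 0 := by
    have : (1 + (u : ℂ) ^ 2) = ((1 + u ^ 2 : ℝ) : ℂ) := by push_cast; ring
    rw [this, Ne, Complex.ofReal_eq_zero]; positivity
  have hv1 : (x : ℂ) - v = (v.im : ℂ) * (u - I) := by
    apply Complex.ext
    · simp; linarith
    · simp
  have hv2 : (x : ℂ) - conj v = (v.im : ℂ) * (u + I) := by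
    apply Complex.ext
    · simp; linarith
    · simp
  rw [hv1, hv2]
  have hI : (1 + (u : ℂ) * I) ^ 2 = 1 + 2 * u * I - u ^ 2 := by
    have : I ^ 2 = -1 := Complex.I_sq
    ring_nf
    rw [this]
    ring
  rw [hI]
  field_simp
  have hI2 : I ^ 2 = -1 := Complex.I_sq
  have hI3 : I * I = -1 := Complex.I_mul_I
  ring_nf
  rw [hI2]
  ring

lemma Afun_real (hw : ∀ k ∈ s, 0 < (w k).im) (x : ℝ) :
    Afun s w x = Bfun s w x * exp ((Theta s w x : ℝ) * I) := by
  unfold Afun Bfun Theta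
  rw [Complex.ofReal_sum, Finset.sum_mul, Complex.exp_sum, ← Finset.prod_mul_distrib]
  exact Finset.prod_congr rfl fun k hk => factor_eq x (w k) (hw k hk)

lemma Bfun_real_ne_zero (hw : ∀ k ∈ s, 0 < (w k).im) (x : ℝ) : Bfun s w x ≠ 0 := by
  unfold Bfun
  rw [Finset.prod_ne_zero_iff]
  intro k hk h0
  have h1 : ((x : ℂ) - conj (w k)).im = 0 := by rw [h0]; simp
  simp at h1
  exact (hw k hk).ne' h1

lemma Afun_eq_Bfun_iff (hw : ∀ k ∈ s, 0 < (w k).im) (x : ℝ) :
    Afun s w x = Bfun s w x ↔ ∃ n : ℤ, Theta s w x = n * (2 * Real.pi) := by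
  rw [Afun_real s w hw x]
  constructor
  · intro h
    have h1 : exp ((Theta s w x : ℝ) * I) = 1 := by
      have := Bfun_real_ne_zero s w hw x
      exact mul_left_cancel₀ this (by rw [h, mul_one])
    rw [Complex.exp_eq_one_iff] at h1
    obtain ⟨n, hn⟩ := h1
    refine ⟨n, ?_⟩
    have h2 : ((Theta s w x : ℝ) : ℂ) * I = ((n * (2 * Real.pi) : ℝ) : ℂ) * I := by
      rw [hn]; push_cast; ring
    exact_mod_cast mul_right_cancel₀ Complex.I_ne_zero h2
  · rintro ⟨n, hn⟩
    have h1 : exp ((Theta s w x : ℝ) * I) = 1 := by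
      rw [Complex.exp_eq_one_iff]
      refine ⟨n, ?_⟩
      rw [hn]; push_cast; ring
    rw [h1, mul_one]

lemma Theta_strictMono (hs : s.Nonempty) (hw : ∀ k ∈ s, 0 < (w k).im) :
    StrictMono (Theta s w) := by
  intro x y hxy
  unfold Theta
  refine Finset.sum_lt_sum_of_nonempty hs fun k hk => ?_
  have h1 : (x - (w k).re) / (w k).im < (y - (w k).re) / (w k).im :=
    div_lt_div_of_pos_right (by linarith) (hw k hk)
  have h2 := Real.arctan_strictMono h1
  linarith

lemma Theta_continuous : Continuous (Theta s w) := by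
  unfold Theta
  refine continuous_finsetSum _ fun k _ => ?_
  exact ((continuous_const.mul (Real.continuous_arctan.comp
    ((continuous_id.sub continuous_const).div_const _))).add continuous_const)

lemma AB_ne_of_im_ne (hs : s.Nonempty) (hw : ∀ k ∈ s, 0 < (w k).im) (z : ℂ) (hz : z.im ≠ 0) :
    Afun s w z ≠ Bfun s w z := by
  intro h
  rcases lt_or_gt_of_ne hz with h1 | h1
  · have := AB_lower s w hs hw z h1
    rw [h] at this; exact lt_irrefl _ this
  · have := AB_upper s w hs hw z h1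
    rw [h] at this; exact lt_irrefl _ this

lemma Afun_analytic (z : ℂ) : AnalyticAt ℂ (Afun s w) z := by
  unfold Afun
  exact Finset.analyticAt_fun_prod _ fun k _ => analyticAt_id.sub analyticAt_const

lemma Bfun_analytic (z : ℂ) : AnalyticAt ℂ (Bfun s w) z := by
  unfold Bfun
  exact Finset.analyticAt_fun_prod _ fun k _ => analyticAt_id.sub analyticAt_const

lemma Afun_hasDeriv (x : ℂ) (hx : ∀ k ∈ s, x - w k ≠ 0) :
    HasDerivAt (Afun s w) (Afun s w x * ∑ k ∈ s, 1 / (x - w k)) x := by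
  classical
  unfold Afun
  have := HasDerivAt.fun_finsetProd (u := s) (f := fun k z => z - w k) (f' := fun _ => (1:ℂ)) (x := x)
    (fun k _ => by simpa using (hasDerivAt_id x).sub_const (w k))
  refine this.congr_deriv ?_
  rw [Finset.mul_sum]
  refine Finset.sum_congr rfl fun k hk => ?_
  rw [← Finset.mul_prod_erase s _ hk, smul_eq_mul, mul_one]
  have := hx k hk
  field_simp

lemma Bfun_hasDeriv (x : ℂ) (hx : ∀ k ∈ s, x - conj (w k) ≠ 0) :
    HasDerivAt (Bfun s w) (Bfun s w x * ∑ k ∈ s, 1 / (x - conj (w k))) x :=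
  Afun_hasDeriv s (fun k => conj (w k)) x hx

/-- the derivative of `B - A` does not vanish at a real zero -/
lemma deriv_D_ne_zero (hs : s.Nonempty) (hw : ∀ k ∈ s, 0 < (w k).im) (x : ℝ)
    (h : Afun s w x = Bfun s w x) :
    ∃ D : ℂ, D ≠ 0 ∧ HasDerivAt (fun z => Bfun s w z - Afun s w z) D x := by
  have hx1 : ∀ k ∈ s, (x : ℂ) - w k ≠ 0 := by
    intro k hk h0
    have h1 : ((x : ℂ) - (w k)).im = 0 := by rw [h0]; simp
    simp at h1
    exact (hw k hk).ne' h1
  have hx2 : ∀ k ∈ s, (x : ℂ) - conj (w k) ≠ 0 := by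
    intro k hk h0
    have h1 : ((x : ℂ) - conj (w k)).im = 0 := by rw [h0]; simp
    simp at h1
    exact (hw k hk).ne' h1
  refine ⟨_, ?_, (Bfun_hasDeriv s w x hx2).sub (Afun_hasDeriv s w x hx1)⟩
  rw [h, ← mul_sub, ← Finset.sum_sub_distrib]
  refine mul_ne_zero (Bfun_real_ne_zero s w hw x) ?_
  intro h0
  have h1 : (∑ k ∈ s, (1 / ((x : ℂ) - conj (w k)) - 1 / ((x : ℂ) - w k))).im = 0 := by
    rw [h0]; simp
  rw [Complex.im_sum] at h1
  have h2 : ∀ k ∈ s, (1 / ((x : ℂ) - conj (w k)) - 1 / ((x : ℂ) - w k)).im < 0 := by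
    intro k hk
    have hk0 := hw k hk
    have e1 : (1 / ((x : ℂ) - conj (w k)) - 1 / ((x : ℂ) - w k)) =
        -(2 * (w k).im * I) / (((x : ℂ) - conj (w k)) * ((x : ℂ) - w k)) := by
      have a1 := hx1 k hk
      have a2 := hx2 k hk
      field_simp
      apply Complex.ext
      · simp
      · simp; ring
    have e2 : (((x : ℂ) - conj (w k)) * ((x : ℂ) - w k)) =
        (((x - (w k).re) ^ 2 + (w k).im ^ 2 : ℝ) : ℂ) := by
      apply Complex.ext
      · rw [Complex.ofReal_re]; simp; ring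
      · rw [Complex.ofReal_im]; simp; ring
    rw [e1, e2, Complex.div_ofReal_im]
    apply div_neg_of_neg_of_pos
    · simp; exact hk0
    · positivity
  have h3 : ∑ k ∈ s, (1 / ((x : ℂ) - conj (w k)) - 1 / ((x : ℂ) - w k)).im < 0 :=
    Finset.sum_neg h2 hs
  linarith


lemma ord_factor (v z : ℂ) :
    meromorphicOrderAt (fun y : ℂ => y - v) z = if v = z then (1 : WithTop ℤ) else 0 := by
  split_ifs with h
  · subst h
    exact meromorphicOrderAt_id_sub_const
  · have hf : AnalyticAt ℂ (fun y : ℂ => y - v) z := analyticAt_id.sub analyticAt_const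
    rw [hf.meromorphicOrderAt_eq]
    have : analyticOrderAt (fun y : ℂ => y - v) z = 0 := by
      rw [hf.analyticOrderAt_eq_zero]
      exact sub_ne_zero.mpr (Ne.symm h)
    rw [this]; rfl

lemma ord_A [DecidableEq ι] (z : ℂ) :
    meromorphicOrderAt (Afun s w) z =
      (((s.filter (fun k => w k = z)).card : ℤ) : WithTop ℤ) := by
  unfold Afun
  rw [meromorphicOrderAt_fun_prod (fun i _ => (analyticAt_id.sub analyticAt_const).meromorphicAt)]
  rw [Finset.sum_congr rfl (fun k _ => ord_factor (w k) z), ← Finset.sum_filter]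
  simp

/-- order of a nonvanishing analytic function -/
lemma ord_of_ne {f : ℂ → ℂ} {z : ℂ} (hf : AnalyticAt ℂ f z) (h : f z ≠ 0) :
    meromorphicOrderAt f z = 0 := by
  rw [hf.meromorphicOrderAt_eq, (hf.analyticOrderAt_eq_zero).mpr h]
  rfl

lemma D_analytic (z : ℂ) : AnalyticAt ℂ (fun z => Bfun s w z - Afun s w z) z :=
  (Bfun_analytic s w z).sub (Afun_analytic s w z)

lemma N_analytic (a b : ℝ) (z : ℂ) : AnalyticAt ℂ (fun z => (b : ℂ) *
    (I * (Bfun s w z + Afun s w z)) + a * (Bfun s w z - Afun s w z)) z :=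
  (analyticAt_const.mul (analyticAt_const.mul ((Bfun_analytic s w z).add
    (Afun_analytic s w z)))).add (analyticAt_const.mul (D_analytic s w z))

/-- order of `m` at a real pole -/
lemma mfun_order_pole (a b : ℝ) (hb : 0 < b) (hs : s.Nonempty) (hw : ∀ k ∈ s, 0 < (w k).im)
    (x : ℝ) (h : Afun s w x = Bfun s w x) :
    meromorphicOrderAt (mfun s w a b) (x : ℂ) = ((-1 : ℤ) : WithTop ℤ) := by
  obtain ⟨D, hD, hDx⟩ := deriv_D_ne_zero s w hs hw x h
  have h1 : meromorphicOrderAt (fun z => Bfun s w z - Afun s w z) (x : ℂ) = 1 := by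
    rw [(D_analytic s w x).meromorphicOrderAt_eq]
    have : analyticOrderAt (fun z => Bfun s w z - Afun s w z) (x : ℂ) = 1 := by
      apply (D_analytic s w x).analyticOrderAt_eq_one_of_zero_deriv_ne_zero
      · simp [h]
      · rw [hDx.deriv]; exact hD
    rw [this]; rfl
  have h2 : meromorphicOrderAt (fun z => (b : ℂ) *
    (I * (Bfun s w z + Afun s w z)) + a * (Bfun s w z - Afun s w z)) (x : ℂ) = 0 := by
    apply ord_of_ne (N_analytic s w a b x)
    have := Bfun_real_ne_zero s w hw x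
    rw [h]
    simp [this, hb.ne']
  have h3 := meromorphicOrderAt_div (N_analytic s w a b x).meromorphicAt
    (D_analytic s w x).meromorphicAt
  rw [h1, h2] at h3
  exact h3

lemma mfun_analytic (a b : ℝ) (z : ℂ) (h : Afun s w z ≠ Bfun s w z) :
    AnalyticAt ℂ (mfun s w a b) z :=
  (N_analytic s w a b z).div (D_analytic s w z) (sub_ne_zero.mpr h.symm)

lemma mfun_meromorphic (a b : ℝ) : Meromorphic (mfun s w a b) := fun z =>
  (N_analytic s w a b z).meromorphicAt.div (D_analytic s w z).meromorphicAt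

lemma mfun_order_nonneg (a b : ℝ) (z : ℂ) (h : Afun s w z ≠ Bfun s w z) :
    0 ≤ meromorphicOrderAt (mfun s w a b) z :=
  (mfun_analytic s w a b z h).meromorphicOrderAt_nonneg

lemma mfun_order_neg_iff (a b : ℝ) (hb : 0 < b) (hs : s.Nonempty) (hw : ∀ k ∈ s, 0 < (w k).im)
    (z : ℂ) : meromorphicOrderAt (mfun s w a b) z < 0 ↔ Afun s w z = Bfun s w z := by
  constructor
  · intro h
    by_contra h0
    exact absurd h (not_lt.mpr (mfun_order_nonneg s w a b z h0))
  · intro h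
    have him : z.im = 0 := by
      by_contra h0
      exact AB_ne_of_im_ne s w hs hw z h0 h
    have hz : z = ((z.re : ℝ) : ℂ) := by
      apply Complex.ext <;> simp [him]
    rw [hz] at h ⊢
    rw [mfun_order_pole s w a b hb hs hw _ h]
    exact_mod_cast (by norm_num : (-1 : ℤ) < 0)

lemma mfun_NF (a b : ℝ) (hb : 0 < b) (hs : s.Nonempty) (hw : ∀ k ∈ s, 0 < (w k).im) :
    MeromorphicNFOn (mfun s w a b) Set.univ := by
  intro z _
  rw [meromorphicNFAt_iff_analyticAt_or]
  by_cases h : Afun s w z = Bfun s w z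
  · right
    refine ⟨mfun_meromorphic s w a b z, (mfun_order_neg_iff s w a b hb hs hw z).mpr h, ?_⟩
    unfold mfun
    rw [h, sub_self, div_zero]
  · left
    exact mfun_analytic s w a b z h

/-- Structure of `m - c` for `c = a ± b i`: the numerator is a multiple of `∏ (z - v k)`. -/
def NumEq (a b : ℝ) (c : ℂ) (v : ι → ℂ) : Prop :=
  ∀ y, Bfun s w y - Afun s w y ≠ 0 →
    mfun s w a b y - c = ((2 * b * I) * Afun s v y) / (Bfun s w y - Afun s w y)

lemma numEq_upper (a b : ℝ) : NumEq s w a b (a + b * I) w := by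
  intro y hy
  rw [mfun_eq s w a b y hy]
  field_simp
  ring

lemma numEq_lower (a b : ℝ) : NumEq s w a b (a - b * I) (fun k => conj (w k)) := by
  intro y hy
  rw [mfun_eq s w a b y hy]
  have : Afun s (fun k => conj (w k)) y = Bfun s w y := rfl
  rw [this]
  field_simp
  ring

/-- order of `m - c` at a point which is not a pole -/
lemma order_sub [DecidableEq ι] (a b : ℝ) (hb : 0 < b) (c : ℂ) (v : ι → ℂ)
    (hv : NumEq s w a b c v) (z : ℂ) (h : Afun s w z ≠ Bfun s w z) :
    meromorphicOrderAt (fun y => mfun s w a b y - c) z =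
      (((s.filter (fun k => v k = z)).card : ℤ) : WithTop ℤ) := by
  have hD : Bfun s w z - Afun s w z ≠ 0 := sub_ne_zero.mpr h.symm
  have hev : ∀ᶠ y in 𝓝 z, Bfun s w y - Afun s w y ≠ 0 :=
    (D_analytic s w z).continuousAt.eventually_ne hD
  have hcongr : (fun y => mfun s w a b y - c) =ᶠ[𝓝[≠] z]
      (fun y => (2 * b * I) * Afun s v y) / (fun y => Bfun s w y - Afun s w y) := by
    filter_upwards [nhdsWithin_le_nhds hev] with y hy
    exact hv y hy
  have hA : AnalyticAt ℂ (fun y => (2 * b * I) * Afun s v y) z :=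
    analyticAt_const.mul (Afun_analytic s v z)
  rw [meromorphicOrderAt_congr hcongr, meromorphicOrderAt_div hA.meromorphicAt
    (D_analytic s w z).meromorphicAt, ord_of_ne (D_analytic s w z) hD]
  have h2 : meromorphicOrderAt (fun y => (2 * b * I) * Afun s v y) z =
      meromorphicOrderAt (Afun s v) z := by
    have := meromorphicOrderAt_mul_of_ne_zero (f := Afun s v) (g := fun _ => (2 * b * I : ℂ))
      (x := z) analyticAt_const (by simp [hb.ne'])
    exact this
  rw [h2, ord_A s v z]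
  simp

lemma order_sub_pole (a b : ℝ) (hb : 0 < b) (hs : s.Nonempty) (hw : ∀ k ∈ s, 0 < (w k).im)
    (c : ℂ) (z : ℂ) (h : Afun s w z = Bfun s w z) :
    meromorphicOrderAt (fun y => mfun s w a b y - c) z < 0 := by
  have h1 := (mfun_order_neg_iff s w a b hb hs hw z).mpr h
  have h2 : 0 ≤ meromorphicOrderAt (fun _ : ℂ => -c) z := analyticAt_const.meromorphicOrderAt_nonneg
  have h3 := meromorphicOrderAt_add_eq_left_of_lt (f₁ := mfun s w a b) (f₂ := fun _ => -c) (x := z)
    analyticAt_const.meromorphicAt (lt_of_lt_of_le h1 h2)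
  have h4 : (mfun s w a b + fun _ => -c) = (fun y => mfun s w a b y - c) := by
    funext y; simp [sub_eq_add_neg]
  rw [h4] at h3
  rw [h3]; exact h1

/-- real points of the pole set in an interval -/
def realPoles (c d : ℝ) : Set ℝ := {x : ℝ | x ∈ Set.Ioo c d ∧ Afun s w x = Bfun s w x}

/-- the integers strictly between two reals -/
def intsBetween (α β : ℝ) : Set ℤ := {n : ℤ | α < n ∧ (n : ℝ) < β}

lemma intsBetween_eq (α β : ℝ) :
    intsBetween α β = ((Finset.Ioo ⌊α⌋ ⌈β⌉ : Finset ℤ) : Set ℤ) := by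
  ext n
  simp only [intsBetween, Set.mem_ofPred_eq, Finset.coe_Ioo, Set.mem_Ioo]
  rw [Int.floor_lt, Int.lt_ceil]

lemma intsBetween_finite (α β : ℝ) : (intsBetween α β).Finite := by
  rw [intsBetween_eq]; exact Finset.finite_toSet _

lemma intsBetween_ncard_le (α β : ℝ) (h : α ≤ β) : ((intsBetween α β).ncard : ℝ) ≤ β - α + 1 := by
  rw [intsBetween_eq, Set.ncard_coe_finset, Int.card_Ioo]
  have h1 := Int.lt_floor_add_one α
  have h2 := Int.ceil_lt_add_one β
  by_cases h3 : 0 ≤ ⌈β⌉ - ⌊α⌋ - 1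
  · have : ((⌈β⌉ - ⌊α⌋ - 1).toNat : ℝ) = (⌈β⌉ - ⌊α⌋ - 1 : ℤ) := by
      rw [← Int.cast_natCast, Int.toNat_of_nonneg h3]
    rw [this]
    push_cast
    linarith
  · rw [Int.toNat_of_nonpos (by omega)]
    simp
    linarith

lemma le_intsBetween_ncard (α β : ℝ) : β - α - 1 ≤ ((intsBetween α β).ncard : ℝ) := by
  rw [intsBetween_eq, Set.ncard_coe_finset, Int.card_Ioo]
  have h1 := Int.floor_le α
  have h2 := Int.le_ceil β
  have h3 : ((⌈β⌉ - ⌊α⌋ - 1 : ℤ) : ℝ) ≤ ((⌈β⌉ - ⌊α⌋ - 1).toNat : ℝ) := by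
    exact_mod_cast Int.self_le_toNat _
  push_cast at h3
  linarith

lemma realPoles_mapsTo (hs : s.Nonempty) (hw : ∀ k ∈ s, 0 < (w k).im) (c d : ℝ) :
    ∀ x ∈ realPoles s w c d, ⌊Theta s w x / (2 * Real.pi)⌋ ∈
      intsBetween (Theta s w c / (2 * Real.pi)) (Theta s w d / (2 * Real.pi)) ∧
      Theta s w x = ⌊Theta s w x / (2 * Real.pi)⌋ * (2 * Real.pi) := by
  intro x hx
  obtain ⟨n, hn⟩ := (Afun_eq_Bfun_iff s w hw x).mp hx.2
  have hpi : (0 : ℝ) < 2 * Real.pi := by positivity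
  have h1 : Theta s w x / (2 * Real.pi) = n := by rw [hn]; field_simp
  rw [h1, Int.floor_intCast]
  refine ⟨⟨?_, ?_⟩, hn⟩
  · rw [← h1]
    exact div_lt_div_of_pos_right (Theta_strictMono s w hs hw hx.1.1) hpi
  · rw [← h1]
    exact div_lt_div_of_pos_right (Theta_strictMono s w hs hw hx.1.2) hpi

lemma realPoles_injOn (hs : s.Nonempty) (hw : ∀ k ∈ s, 0 < (w k).im) (c d : ℝ) :
    Set.InjOn (fun x => ⌊Theta s w x / (2 * Real.pi)⌋) (realPoles s w c d) := by
  intro x hx y hy hxy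
  have h1 := (realPoles_mapsTo s w hs hw c d x hx).2
  have h2 := (realPoles_mapsTo s w hs hw c d y hy).2
  simp only at hxy
  rw [hxy, ← h2] at h1
  exact (Theta_strictMono s w hs hw).injective h1

lemma realPoles_finite (hs : s.Nonempty) (hw : ∀ k ∈ s, 0 < (w k).im) (c d : ℝ) :
    (realPoles s w c d).Finite :=
  Set.Finite.of_injOn (fun x hx => (realPoles_mapsTo s w hs hw c d x hx).1)
    (realPoles_injOn s w hs hw c d) (intsBetween_finite _ _)

lemma realPoles_ncard_le (hs : s.Nonempty) (hw : ∀ k ∈ s, 0 < (w k).im) (c d : ℝ) (hcd : c ≤ d) :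
    ((realPoles s w c d).ncard : ℝ) ≤ (Theta s w d - Theta s w c) / (2 * Real.pi) + 1 := by
  have h1 := Set.ncard_le_ncard_of_injOn (fun x => ⌊Theta s w x / (2 * Real.pi)⌋)
    (fun x hx => (realPoles_mapsTo s w hs hw c d x hx).1) (realPoles_injOn s w hs hw c d)
    (intsBetween_finite _ _)
  have h2 := intsBetween_ncard_le (Theta s w c / (2 * Real.pi)) (Theta s w d / (2 * Real.pi))
    (div_le_div_of_nonneg_right ((Theta_strictMono s w hs hw).monotone hcd) (by positivity))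
  calc ((realPoles s w c d).ncard : ℝ) ≤ (intsBetween (Theta s w c / (2 * Real.pi))
        (Theta s w d / (2 * Real.pi))).ncard := by exact_mod_cast h1
    _ ≤ _ := h2
    _ = _ := by ring

lemma le_realPoles_ncard (hs : s.Nonempty) (hw : ∀ k ∈ s, 0 < (w k).im) (c d : ℝ) (hcd : c ≤ d) :
    (Theta s w d - Theta s w c) / (2 * Real.pi) - 1 ≤ ((realPoles s w c d).ncard : ℝ) := by
  have hpi : (0 : ℝ) < 2 * Real.pi := by positivity
  have hex : ∀ n ∈ intsBetween (Theta s w c / (2 * Real.pi)) (Theta s w d / (2 * Real.pi)),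
      ∃ x ∈ Set.Ioo c d, Theta s w x = n * (2 * Real.pi) := by
    intro n hn
    have h1 : Theta s w c < n * (2 * Real.pi) := by
      have := hn.1
      rwa [div_lt_iff₀ hpi] at this
    have h2 : n * (2 * Real.pi) < Theta s w d := by
      have := hn.2
      rwa [lt_div_iff₀ hpi] at this
    exact intermediate_value_Ioo hcd (Theta_continuous s w).continuousOn ⟨h1, h2⟩
  choose! f hf1 hf2 using hex
  have h1 := Set.ncard_le_ncard_of_injOn (t := realPoles s w c d) f
    (fun n hn => ⟨hf1 n hn, (Afun_eq_Bfun_iff s w hw _).mpr ⟨n, hf2 n hn⟩⟩)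
    (by
      intro a ha b hb hab
      have e1 := hf2 a ha
      have e2 := hf2 b hb
      rw [hab, e2] at e1
      have := mul_right_cancel₀ hpi.ne' e1
      exact_mod_cast this.symm) (realPoles_finite s w hs hw c d)
  have h2 := le_intsBetween_ncard (Theta s w c / (2 * Real.pi)) (Theta s w d / (2 * Real.pi))
  calc (Theta s w d - Theta s w c) / (2 * Real.pi) - 1 = Theta s w d / (2 * Real.pi) -
        Theta s w c / (2 * Real.pi) - 1 := by ring
    _ ≤ (intsBetween (Theta s w c / (2 * Real.pi)) (Theta s w d / (2 * Real.pi))).ncard := h2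
    _ ≤ _ := by exact_mod_cast h1

lemma Theta_nonneg (x : ℝ) : 0 ≤ Theta s w x := by
  unfold Theta
  refine Finset.sum_nonneg fun k _ => ?_
  have := Real.neg_pi_div_two_lt_arctan ((x - (w k).re) / (w k).im)
  linarith

lemma Theta_le (x : ℝ) : Theta s w x ≤ s.card * (2 * Real.pi) := by
  unfold Theta
  rw [← nsmul_eq_mul]
  refine Finset.sum_le_card_nsmul _ _ _ fun k _ => ?_
  have := Real.arctan_lt_pi_div_two ((x - (w k).re) / (w k).im)
  linarith

lemma allPoles_finite (hs : s.Nonempty) (hw : ∀ k ∈ s, 0 < (w k).im) :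
    {z : ℂ | Afun s w z = Bfun s w z}.Finite := by
  have h1 : {x : ℝ | Afun s w x = Bfun s w x}.Finite := by
    refine Set.Finite.of_injOn (f := fun x => ⌊Theta s w x / (2 * Real.pi)⌋)
      (t := intsBetween (-1) (s.card + 1)) ?_ ?_ (intsBetween_finite _ _)
    · intro x hx
      obtain ⟨n, hn⟩ := (Afun_eq_Bfun_iff s w hw x).mp hx
      have hpi : (0 : ℝ) < 2 * Real.pi := by positivity
      have h1 : Theta s w x / (2 * Real.pi) = n := by rw [hn]; field_simp
      simp only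
      rw [h1, Int.floor_intCast]
      constructor
      · rw [← h1]
        have := div_nonneg (Theta_nonneg s w x) hpi.le
        linarith
      · rw [← h1, div_lt_iff₀ hpi]
        have := Theta_le s w x
        nlinarith
    · intro x hx y hy hxy
      simp only at hxy
      obtain ⟨n, hn⟩ := (Afun_eq_Bfun_iff s w hw x).mp hx
      obtain ⟨n', hn'⟩ := (Afun_eq_Bfun_iff s w hw y).mp hy
      have h1 : Theta s w x / (2 * Real.pi) = n := by rw [hn]; field_simp
      have h2 : Theta s w y / (2 * Real.pi) = n' := by rw [hn']; field_simp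
      rw [h1, h2, Int.floor_intCast, Int.floor_intCast] at hxy
      rw [hxy, ← hn'] at hn
      exact (Theta_strictMono s w hs hw).injective hn
  refine (h1.image (fun x : ℝ => (x : ℂ))).subset ?_
  intro z hz
  have him : z.im = 0 := by
    by_contra h0
    exact AB_ne_of_im_ne s w hs hw z h0 hz
  have hzz : z = ((z.re : ℝ) : ℂ) := by
    apply Complex.ext <;> simp [him]
  refine ⟨z.re, ?_, hzz.symm⟩
  rw [hzz] at hz
  exact hz

lemma A_ne_B_of_eq [DecidableEq ι] (hs : s.Nonempty) (hw : ∀ k ∈ s, 0 < (w k).im)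
    (v : ι → ℂ) (hv : ∀ k ∈ s, (v k).im ≠ 0) (z : ℂ)
    (h : Afun s w z = Bfun s w z) : (s.filter (fun k => v k = z)).card = 0 := by
  rw [Finset.card_eq_zero, Finset.filter_eq_empty_iff]
  intro k hk hkz
  have := hv k hk
  rw [hkz] at this
  exact AB_ne_of_im_ne s w hs hw z this h

lemma zero_mult [DecidableEq ι] (a b : ℝ) (hb : 0 < b) (hs : s.Nonempty)
    (hw : ∀ k ∈ s, 0 < (w k).im) (c : ℂ) (v : ι → ℂ) (hv : ∀ k ∈ s, (v k).im ≠ 0)
    (hv2 : NumEq s w a b c v) (z : ℂ) :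
    (meromorphicOrderAt (fun y => mfun s w a b y - c) z).untop₀.toNat =
      (s.filter (fun k => v k = z)).card := by
  by_cases h : Afun s w z = Bfun s w z
  · rw [A_ne_B_of_eq s w hs hw v hv z h]
    have h1 := order_sub_pole s w a b hb hs hw c z h
    have h2 : meromorphicOrderAt (fun y => mfun s w a b y - c) z ≠ ⊤ := h1.ne_top
    rw [← WithTop.coe_untop₀_of_ne_top h2] at h1
    have h3 : (meromorphicOrderAt (fun y => mfun s w a b y - c) z).untop₀ < 0 := by
      exact_mod_cast h1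
    exact Int.toNat_of_nonpos h3.le
  · rw [order_sub s w a b hb c v hv2 z h, WithTop.untop₀_coe, Int.toNat_natCast]

lemma zeroCount_eq [DecidableEq ι] (a b : ℝ) (hb : 0 < b) (hs : s.Nonempty)
    (hw : ∀ k ∈ s, 0 < (w k).im) (c : ℂ) (v : ι → ℂ) (hv : ∀ k ∈ s, (v k).im ≠ 0)
    (hv2 : NumEq s w a b c v) (U : Set ℂ) [DecidablePred (fun k => v k ∈ U)] :
    zeroCount (fun y => mfun s w a b y - c) U = (s.filter (fun k => v k ∈ U)).card := by
  classical
  unfold zeroCount
  rw [finsum_mem_congr rfl (fun z _ => zero_mult s w a b hb hs hw c v hv hv2 z)]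
  rw [finsum_mem_eq_sum_of_inter_support_eq (t := (s.image v).filter (fun z => z ∈ U))]
  · rw [Finset.card_eq_sum_card_fiberwise (f := v) (t := (s.image v).filter (fun z => z ∈ U))]
    · refine Finset.sum_congr rfl fun z hz => ?_
      rw [Finset.filter_filter]
      congr 1
      ext k
      simp only [Finset.mem_filter]
      rw [Finset.mem_filter] at hz
      constructor
      · rintro ⟨h1, h2⟩
        exact ⟨h1, by rw [h2]; exact hz.2, h2⟩
      · rintro ⟨h1, h2, h3⟩
        exact ⟨h1, h3⟩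
    · intro k hk
      rw [Finset.mem_coe, Finset.mem_filter] at hk ⊢
      exact ⟨Finset.mem_image_of_mem v hk.1, hk.2⟩
  · ext z
    simp only [Set.mem_inter_iff, Function.mem_support, ne_eq, Finset.coe_filter,
      Finset.mem_image, Set.mem_ofPred_eq]
    constructor
    · rintro ⟨h1, h2⟩
      obtain ⟨k, hk⟩ := Finset.card_ne_zero.mp h2
      rw [Finset.mem_filter] at hk
      exact ⟨⟨⟨k, hk.1, hk.2⟩, h1⟩, h2⟩
    · rintro ⟨⟨_, h1⟩, h2⟩
      exact ⟨h1, h2⟩

lemma zero_set_finite [DecidableEq ι] (a b : ℝ) (hb : 0 < b) (hs : s.Nonempty)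
    (hw : ∀ k ∈ s, 0 < (w k).im) (c : ℂ) (v : ι → ℂ) (hv2 : NumEq s w a b c v) :
    {z : ℂ | 0 < meromorphicOrderAt (fun y => mfun s w a b y - c) z}.Finite := by
  classical
  refine Set.Finite.subset (s.image v).finite_toSet ?_
  intro z hz
  rw [Set.mem_ofPred_eq] at hz
  by_cases h : Afun s w z = Bfun s w z
  · exact absurd hz (not_lt.mpr (order_sub_pole s w a b hb hs hw c z h).le)
  · rw [order_sub s w a b hb c v hv2 z h] at hz
    have h2 : (s.filter (fun k => v k = z)).card ≠ 0 := by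
      intro h0
      rw [h0] at hz
      exact lt_irrefl _ hz
    obtain ⟨k, hk⟩ := Finset.card_ne_zero.mp h2
    rw [Finset.mem_filter] at hk
    rw [Finset.mem_coe, ← hk.2]
    exact Finset.mem_image_of_mem v hk.1

lemma pole_mult (a b : ℝ) (hb : 0 < b) (hs : s.Nonempty) (hw : ∀ k ∈ s, 0 < (w k).im) (z : ℂ)
    [Decidable (Afun s w z = Bfun s w z)] :
    (-(meromorphicOrderAt (mfun s w a b) z).untop₀).toNat =
      if Afun s w z = Bfun s w z then 1 else 0 := by
  split_ifs with h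
  · have him : z.im = 0 := by
      by_contra h0
      exact AB_ne_of_im_ne s w hs hw z h0 h
    have hz : z = ((z.re : ℝ) : ℂ) := by
      apply Complex.ext <;> simp [him]
    rw [hz] at h ⊢
    rw [mfun_order_pole s w a b hb hs hw _ h]
    rfl
  · have h1 := mfun_order_nonneg s w a b z h
    have h2 : 0 ≤ (meromorphicOrderAt (mfun s w a b) z).untop₀ := WithTop.untop₀_nonneg.mpr h1
    exact Int.toNat_of_nonpos (by omega)

lemma pole_set_eq (a b : ℝ) (hb : 0 < b) (hs : s.Nonempty) (hw : ∀ k ∈ s, 0 < (w k).im) :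
    {z ∈ Metric.ball (0 : ℂ) 1 | meromorphicOrderAt (mfun s w a b) z < 0} =
      (fun x : ℝ => (x : ℂ)) '' (realPoles s w (-1) 1) := by
  ext z
  simp only [Set.mem_ofPred_eq, Set.mem_image, realPoles, Set.mem_Ioo]
  rw [mfun_order_neg_iff s w a b hb hs hw]
  constructor
  · rintro ⟨h1, h2⟩
    have him : z.im = 0 := by
      by_contra h0
      exact AB_ne_of_im_ne s w hs hw z h0 h2
    have hz : z = ((z.re : ℝ) : ℂ) := by
      apply Complex.ext <;> simp [him]
    rw [hz] at h1 h2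
    rw [mem_ball_zero_iff, Complex.norm_real, Real.norm_eq_abs, abs_lt] at h1
    exact ⟨z.re, ⟨h1, h2⟩, hz.symm⟩
  · rintro ⟨x, ⟨hx1, hx2⟩, rfl⟩
    refine ⟨?_, hx2⟩
    rw [mem_ball_zero_iff, Complex.norm_real, Real.norm_eq_abs, abs_lt]
    exact hx1

lemma poleCount_eq (a b : ℝ) (hb : 0 < b) (hs : s.Nonempty) (hw : ∀ k ∈ s, 0 < (w k).im) :
    poleCount (mfun s w a b) (Metric.ball 0 1) = (realPoles s w (-1) 1).ncard := by
  classical
  unfold poleCount
  rw [finsum_mem_congr rfl (fun z _ => pole_mult s w a b hb hs hw z)]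
  have hfin := realPoles_finite s w hs hw (-1) 1
  have hfin2 : ((fun x : ℝ => (x : ℂ)) '' (realPoles s w (-1) 1)).Finite := hfin.image _
  rw [finsum_mem_eq_sum_of_inter_support_eq (t := hfin2.toFinset)]
  · rw [← Set.ncard_image_of_injective (realPoles s w (-1) 1) Complex.ofReal_injective,
      Set.ncard_eq_toFinset_card _ hfin2, Finset.card_eq_sum_ones]
    refine Finset.sum_congr rfl fun z hz => ?_
    rw [Set.Finite.mem_toFinset] at hz
    obtain ⟨x, hx, rfl⟩ := hz
    exact if_pos hx.2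
  · rw [Set.Finite.coe_toFinset, ← pole_set_eq s w a b hb hs hw]
    ext z
    simp only [Set.mem_inter_iff, Function.mem_support, ne_eq, ite_eq_right_iff, one_ne_zero,
      imp_false, not_not, Set.mem_ofPred_eq]
    rw [mfun_order_neg_iff s w a b hb hs hw]
    tauto

end general

section specific

/-- The index set: `p` indices for the cluster at `-1`, and `2 n ^ 2 + 1` indices for the grid. -/
noncomputable def idx (p n : ℕ) : Finset (ℕ ⊕ ℤ) :=
  (Finset.range p).disjSum (Finset.Icc (-(n : ℤ) ^ 2) ((n : ℤ) ^ 2))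

/-- The zeros of the Blaschke products: a cluster converging to `-1` and a grid close to `ℝ`. -/
noncomputable def pts (n : ℕ) : ℕ ⊕ ℤ → ℂ :=
  Sum.elim (fun k => ⟨-1 + (1 / 2) ^ (k + 1), (1 / 2) ^ (k + 1)⟩) (fun l => ⟨l / n, 1 / (n : ℝ) ^ 3⟩)

lemma pts_im_pos (n : ℕ) (hn : 0 < n) (k : ℕ ⊕ ℤ) : 0 < (pts n k).im := by
  have : (0 : ℝ) < n := by exact_mod_cast hn
  rcases k with k | l
  · simp only [pts, Sum.elim_inl]; positivity
  · simp only [pts, Sum.elim_inr]; positivity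

lemma idx_nonempty (p n : ℕ) : (idx p n).Nonempty := by
  refine ⟨Sum.inr 0, ?_⟩
  simp only [idx, Finset.inr_mem_disjSum, Finset.mem_Icc]
  constructor
  · have : 0 ≤ (n : ℤ) ^ 2 := by positivity
    omega
  · positivity

lemma Theta_diff (p n : ℕ) (x y : ℝ) :
    Theta (idx p n) (pts n) y - Theta (idx p n) (pts n) x =
      ∑ k ∈ Finset.range p, 2 * (Real.arctan ((y - (-1 + (1 / 2) ^ (k + 1))) / (1 / 2) ^ (k + 1)) -
        Real.arctan ((x - (-1 + (1 / 2) ^ (k + 1))) / (1 / 2) ^ (k + 1))) +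
      ∑ l ∈ Finset.Icc (-(n : ℤ) ^ 2) ((n : ℤ) ^ 2),
        2 * (Real.arctan ((y - l / n) / (1 / (n : ℝ) ^ 3)) -
          Real.arctan ((x - l / n) / (1 / (n : ℝ) ^ 3))) := by
  unfold Theta idx pts
  rw [Finset.sum_disjSum, Finset.sum_disjSum]
  simp only [Sum.elim_inl, Sum.elim_inr]
  rw [add_sub_add_comm, ← Finset.sum_sub_distrib, ← Finset.sum_sub_distrib]
  congr 1
  · refine Finset.sum_congr rfl fun k _ => ?_
    ring
  · refine Finset.sum_congr rfl fun k _ => ?_
    ring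

lemma arctan_le_self {x : ℝ} (hx : 0 ≤ x) : Real.arctan x ≤ x := by
  rcases hx.eq_or_lt with h | h
  · rw [← h]; simp
  · have := Real.lt_tan (Real.arctan_pos.mpr h) (Real.arctan_lt_pi_div_two x)
    rw [Real.tan_arctan] at this
    exact this.le

lemma cluster_term (t : ℝ) (ht : 0 < t) :
    2 * (Real.arctan ((1 - (-1 + t)) / t) - Real.arctan ((-1 - (-1 + t)) / t)) ≤
      3 / 2 * Real.pi := by
  have h1 : (-1 - (-1 + t)) / t = -1 := by field_simp; ring
  rw [h1, Real.arctan_neg, Real.arctan_one]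
  have := Real.arctan_lt_pi_div_two ((1 - (-1 + t)) / t)
  linarith

/-- if `u ≥ r > 0` then `arctan u ≥ π / 2 - 1 / r`. -/
lemma arctan_ge {r u : ℝ} (hr : 0 < r) (hu : r ≤ u) : Real.pi / 2 - 1 / r ≤ Real.arctan u := by
  have h1 : Real.arctan r ≤ Real.arctan u := Real.arctan_le_arctan_iff.mpr hu
  have h2 : Real.arctan (1 / r) = Real.pi / 2 - Real.arctan r := by
    rw [one_div, Real.arctan_inv_of_pos hr]
  have h3 : Real.arctan (1 / r) ≤ 1 / r := arctan_le_self (by positivity)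
  linarith

lemma grid_term (n : ℕ) (hn : 0 < n) (l : ℤ) :
    2 * (Real.arctan ((1 - l / n) / (1 / (n : ℝ) ^ 3)) -
          Real.arctan ((-1 - l / n) / (1 / (n : ℝ) ^ 3))) ≤
      (if l ∈ Finset.Icc (-(n : ℤ)) n then 2 * Real.pi else 0) + 2 / (n : ℝ) ^ 2 := by
  have hn' : (0 : ℝ) < n := by exact_mod_cast hn
  have ha := Real.arctan_lt_pi_div_two ((1 - l / n) / (1 / (n : ℝ) ^ 3))
  have hb := Real.neg_pi_div_two_lt_arctan ((-1 - l / n) / (1 / (n : ℝ) ^ 3))
  have hpos : 0 < 2 / (n : ℝ) ^ 2 := by positivity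
  split_ifs with h
  · linarith
  · rw [Finset.mem_Icc, not_and_or, not_le, not_le] at h
    rcases h with h | h
    · have hl : (l : ℝ) ≤ -(n : ℝ) - 1 := by
        have : l ≤ -(n : ℤ) - 1 := by omega
        exact_mod_cast this
      have h1 : (n : ℝ) ^ 2 ≤ (-1 - l / n) / (1 / (n : ℝ) ^ 3) := by
        rw [div_div_eq_mul_div, div_one]
        have : (1 : ℝ) / n ≤ -1 - l / n := by
          rw [div_le_iff₀ hn']
          field_simp
          linarith
        calc (n : ℝ) ^ 2 = (1 / n) * (n : ℝ) ^ 3 := by field_simp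
          _ ≤ _ := mul_le_mul_of_nonneg_right this (by positivity)
      have h2 := arctan_ge (by positivity) h1
      have h3 : (2 : ℝ) / n ^ 2 = 2 * (1 / n ^ 2) := by ring
      rw [h3]
      linarith
    · have hl : (n : ℝ) + 1 ≤ l := by
        have : (n : ℤ) + 1 ≤ l := by omega
        exact_mod_cast this
      have h1 : (n : ℝ) ^ 2 ≤ -((1 - l / n) / (1 / (n : ℝ) ^ 3)) := by
        rw [div_div_eq_mul_div, div_one, ← neg_mul]
        have : (1 : ℝ) / n ≤ -(1 - l / n) := by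
          rw [div_le_iff₀ hn']
          field_simp
          linarith
        calc (n : ℝ) ^ 2 = (1 / n) * (n : ℝ) ^ 3 := by field_simp
          _ ≤ _ := mul_le_mul_of_nonneg_right this (by positivity)
      have h2 := arctan_ge (by positivity) h1
      rw [Real.arctan_neg] at h2
      have h3 : (2 : ℝ) / n ^ 2 = 2 * (1 / n ^ 2) := by ring
      rw [h3]
      linarith

lemma Theta_bound (p n : ℕ) (hn : 2 ≤ n) :
    Theta (idx p n) (pts n) 1 - Theta (idx p n) (pts n) (-1) ≤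
      (3 / 4 * p + (2 * n + 1) + 1) * (2 * Real.pi) := by
  have hn' : (2 : ℝ) ≤ n := by exact_mod_cast hn
  rw [Theta_diff]
  have h1 : ∑ k ∈ Finset.range p, 2 * (Real.arctan ((1 - (-1 + (1 / 2 : ℝ) ^ (k + 1))) / (1 / 2) ^ (k + 1)) -
        Real.arctan ((-1 - (-1 + (1 / 2) ^ (k + 1))) / (1 / 2) ^ (k + 1))) ≤
        ∑ k ∈ Finset.range p, 3 / 2 * Real.pi :=
    Finset.sum_le_sum fun k _ => cluster_term _ (by positivity)
  have h2 : ∑ l ∈ Finset.Icc (-(n : ℤ) ^ 2) ((n : ℤ) ^ 2),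
        2 * (Real.arctan ((1 - l / n) / (1 / (n : ℝ) ^ 3)) -
          Real.arctan ((-1 - l / n) / (1 / (n : ℝ) ^ 3))) ≤
      ∑ l ∈ Finset.Icc (-(n : ℤ) ^ 2) ((n : ℤ) ^ 2),
        ((if l ∈ Finset.Icc (-(n : ℤ)) n then 2 * Real.pi else 0) + 2 / (n : ℝ) ^ 2) :=
    Finset.sum_le_sum fun l _ => grid_term n (by omega) l
  rw [Finset.sum_add_distrib, ← Finset.sum_filter] at h2
  simp only [Finset.sum_const, nsmul_eq_mul, Finset.card_range, Int.card_Icc] at h1 h2
  have h3 : (((Finset.Icc (-(n : ℤ) ^ 2) ((n : ℤ) ^ 2)).filter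
      (fun l => l ∈ Finset.Icc (-(n : ℤ)) n)).card : ℝ) ≤ 2 * n + 1 := by
    have : ((Finset.Icc (-(n : ℤ) ^ 2) ((n : ℤ) ^ 2)).filter
      (fun l => l ∈ Finset.Icc (-(n : ℤ)) n)).card ≤ (Finset.Icc (-(n : ℤ)) n).card := by
      apply Finset.card_le_card
      intro l hl
      rw [Finset.mem_filter] at hl
      exact hl.2
    rw [Int.card_Icc] at this
    have h4 : ((n : ℤ) + 1 - -(n : ℤ)).toNat = 2 * n + 1 := by omega
    rw [h4] at this
    exact_mod_cast this
  have h5 : ((((n : ℤ) ^ 2 + 1 - -(n : ℤ) ^ 2).toNat : ℕ) : ℝ) = 2 * (n : ℝ) ^ 2 + 1 := by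
    have h6 : (0 : ℤ) ≤ (n : ℤ) ^ 2 + 1 - -(n : ℤ) ^ 2 := by
      have : 0 ≤ (n : ℤ) ^ 2 := by positivity
      omega
    have : ((((n : ℤ) ^ 2 + 1 - -(n : ℤ) ^ 2).toNat : ℤ) : ℝ) = 2 * (n : ℝ) ^ 2 + 1 := by
      rw [Int.toNat_of_nonneg h6]; push_cast; ring
    exact_mod_cast this
  rw [h5] at h2
  have h6 : (2 * (n : ℝ) ^ 2 + 1) * (2 / (n : ℝ) ^ 2) ≤ 2 * Real.pi := by
    have h7 : (2 * (n : ℝ) ^ 2 + 1) * (2 / (n : ℝ) ^ 2) = 4 + 2 / (n : ℝ) ^ 2 := by field_simp; ring
    have h8 : 2 / (n : ℝ) ^ 2 ≤ 1 / 2 := by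
      rw [div_le_div_iff₀ (by positivity) (by norm_num)]
      nlinarith
    have h9 := Real.pi_gt_three
    rw [h7]
    linarith
  have h10 := mul_le_mul_of_nonneg_right h3 (by positivity : (0 : ℝ) ≤ 2 * Real.pi)
  nlinarith [Real.pi_pos]

lemma Theta_lower (p n : ℕ) (hn : 2 ≤ n) (c d : ℝ) (hcd : c < d) (hcn : -(n : ℝ) ≤ c)
    (hdn : d ≤ n) (hδ : 1 / (n : ℝ) ^ 3 ≤ (d - c) / 4) :
    Real.pi * (n * ((d - c) / 2) - 1) ≤
      Theta (idx p n) (pts n) d - Theta (idx p n) (pts n) c := by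
  have hn' : (2 : ℝ) ≤ n := by exact_mod_cast hn
  have hn0 : (0 : ℝ) < n := by linarith
  rw [Theta_diff]
  set δ := (d - c) / 4 with hδdef
  have hδpos : 0 < δ := by rw [hδdef]; linarith
  have h1 : 0 ≤ ∑ k ∈ Finset.range p,
      2 * (Real.arctan ((d - (-1 + (1 / 2 : ℝ) ^ (k + 1))) / (1 / 2) ^ (k + 1)) -
        Real.arctan ((c - (-1 + (1 / 2) ^ (k + 1))) / (1 / 2) ^ (k + 1))) := by
    refine Finset.sum_nonneg fun k _ => ?_
    have : Real.arctan ((c - (-1 + (1 / 2 : ℝ) ^ (k + 1))) / (1 / 2) ^ (k + 1)) ≤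
        Real.arctan ((d - (-1 + (1 / 2 : ℝ) ^ (k + 1))) / (1 / 2) ^ (k + 1)) := by
      rw [Real.arctan_le_arctan_iff]
      exact div_le_div_of_nonneg_right (by linarith) (by positivity)
    linarith
  have hsub : Finset.Icc ⌈n * (c + δ)⌉ ⌊n * (d - δ)⌋ ⊆
      Finset.Icc (-(n : ℤ) ^ 2) ((n : ℤ) ^ 2) := by
    intro l hl
    rw [Finset.mem_Icc, Int.ceil_le, Int.le_floor] at hl
    rw [Finset.mem_Icc]
    constructor
    · have : (-(n : ℝ) ^ 2) ≤ l := by nlinarith [hl.1]
      exact_mod_cast this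
    · have : (l : ℝ) ≤ (n : ℝ) ^ 2 := by nlinarith [hl.2]
      exact_mod_cast this
  have hnonneg : ∀ l : ℤ, 0 ≤ 2 * (Real.arctan ((d - l / n) / (1 / (n : ℝ) ^ 3)) -
          Real.arctan ((c - l / n) / (1 / (n : ℝ) ^ 3))) := by
    intro l
    have : Real.arctan ((c - l / n) / (1 / (n : ℝ) ^ 3)) ≤
        Real.arctan ((d - l / n) / (1 / (n : ℝ) ^ 3)) := by
      rw [Real.arctan_le_arctan_iff]
      exact div_le_div_of_nonneg_right (by linarith) (by positivity)
    linarith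
  have h2 : ∑ l ∈ Finset.Icc ⌈n * (c + δ)⌉ ⌊n * (d - δ)⌋, Real.pi ≤
      ∑ l ∈ Finset.Icc (-(n : ℤ) ^ 2) ((n : ℤ) ^ 2),
        2 * (Real.arctan ((d - l / n) / (1 / (n : ℝ) ^ 3)) -
          Real.arctan ((c - l / n) / (1 / (n : ℝ) ^ 3))) := by
    refine le_trans (Finset.sum_le_sum fun l hl => ?_)
      (Finset.sum_le_sum_of_subset_of_nonneg hsub fun l _ _ => hnonneg l)
    rw [Finset.mem_Icc, Int.ceil_le, Int.le_floor] at hl
    have hη : (0 : ℝ) < 1 / (n : ℝ) ^ 3 := by positivity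
    have e1 : 1 ≤ (d - l / n) / (1 / (n : ℝ) ^ 3) := by
      rw [le_div_iff₀ hη, one_mul]
      have : (l : ℝ) / n ≤ d - δ := by rw [div_le_iff₀ hn0]; linarith [hl.2]
      linarith
    have e2 : (c - l / n) / (1 / (n : ℝ) ^ 3) ≤ -1 := by
      rw [div_le_iff₀ hη]
      have : c + δ ≤ (l : ℝ) / n := by rw [le_div_iff₀ hn0]; linarith [hl.1]
      linarith
    have e3 : Real.arctan 1 ≤ Real.arctan ((d - l / n) / (1 / (n : ℝ) ^ 3)) :=
      Real.arctan_le_arctan_iff.mpr e1
    have e4 : Real.arctan ((c - l / n) / (1 / (n : ℝ) ^ 3)) ≤ Real.arctan (-1) :=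
      Real.arctan_le_arctan_iff.mpr e2
    rw [Real.arctan_neg] at e4
    rw [Real.arctan_one] at e3 e4
    linarith
  rw [Finset.sum_const, nsmul_eq_mul, Int.card_Icc] at h2
  have h3 : (n * ((d - c) / 2) - 1 : ℝ) ≤ ((⌊n * (d - δ)⌋ + 1 - ⌈n * (c + δ)⌉).toNat : ℕ) := by
    have h4 : ((⌊n * (d - δ)⌋ + 1 - ⌈n * (c + δ)⌉ : ℤ) : ℝ) ≤
        ((⌊n * (d - δ)⌋ + 1 - ⌈n * (c + δ)⌉).toNat : ℕ) := by
      exact_mod_cast Int.self_le_toNat _
    have h5 := Int.sub_one_lt_floor (n * (d - δ))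
    have h6 := Int.ceil_lt_add_one (n * (c + δ))
    push_cast at h4
    refine le_trans ?_ h4
    have h7 : n * ((d - c) / 2) = n * (d - δ) - n * (c + δ) := by rw [hδdef]; ring
    rw [h7]
    linarith
  have h4 := mul_le_mul_of_nonneg_right h3 Real.pi_pos.le
  linarith

lemma zero_card_lower (p n : ℕ) (hn : 2 ≤ n)
    [DecidablePred (fun k => pts n k ∈ Metric.ball (0 : ℂ) 1)] :
    p + (2 * n - 1) ≤ ((idx p n).filter (fun k => pts n k ∈ Metric.ball (0 : ℂ) 1)).card := by
  have hn' : (2 : ℝ) ≤ n := by exact_mod_cast hn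
  have hn0 : (0 : ℝ) < n := by linarith
  have hcard : ((Finset.range p).disjSum (Finset.Icc (-((n : ℤ) - 1)) ((n : ℤ) - 1))).card =
      p + (2 * n - 1) := by
    rw [Finset.card_disjSum, Finset.card_range, Int.card_Icc]
    omega
  rw [← hcard]
  apply Finset.card_le_card
  intro k hk
  rw [Finset.mem_filter]
  rcases k with k | l
  · rw [Finset.inl_mem_disjSum] at hk
    refine ⟨?_, ?_⟩
    · simp only [idx, Finset.inl_mem_disjSum]; exact hk
    · rw [mem_ball_zero_iff, ← sq_lt_one_iff₀ (norm_nonneg _), ← Complex.normSq_eq_norm_sq,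
        Complex.normSq_apply]
      simp only [pts, Sum.elim_inl]
      have h1 : (0 : ℝ) < (1 / 2) ^ (k + 1) := by positivity
      have h2 : ((1 : ℝ) / 2) ^ (k + 1) ≤ 1 / 2 := by
        rw [pow_succ]
        have : ((1 : ℝ) / 2) ^ k ≤ 1 := pow_le_one₀ (by norm_num) (by norm_num)
        linarith
      nlinarith
  · rw [Finset.inr_mem_disjSum, Finset.mem_Icc] at hk
    refine ⟨?_, ?_⟩
    · simp only [idx, Finset.inr_mem_disjSum, Finset.mem_Icc]
      have : (n : ℤ) ≤ (n : ℤ) ^ 2 := by nlinarith [(by exact_mod_cast hn : (2 : ℤ) ≤ n)]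
      constructor <;> omega
    · rw [mem_ball_zero_iff, ← sq_lt_one_iff₀ (norm_nonneg _), ← Complex.normSq_eq_norm_sq,
        Complex.normSq_apply]
      simp only [pts, Sum.elim_inr]
      have h1 : (l : ℝ) ≤ n - 1 := by exact_mod_cast hk.2
      have h2 : -((n : ℝ) - 1) ≤ l := by exact_mod_cast hk.1
      have h3 : (l : ℝ) ^ 2 ≤ ((n : ℝ) - 1) ^ 2 := by
        rw [← sq_abs]
        apply pow_le_pow_left₀ (abs_nonneg _)
        rw [abs_le]; exact ⟨h2, h1⟩
      have h4 : (l : ℝ) / n * (l / n) + 1 / (n : ℝ) ^ 3 * (1 / (n : ℝ) ^ 3) =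
          ((l : ℝ) ^ 2 * n ^ 4 + 1) / n ^ 6 := by field_simp
      rw [h4, div_lt_one (by positivity)]
      have h5 : ((n : ℝ) - 1) ^ 2 * n ^ 4 + 1 < n ^ 6 := by
        have h6 : (n : ℝ) ^ 6 = n ^ 2 * n ^ 4 := by ring
        have h7 : (1 : ℝ) ≤ n ^ 4 := one_le_pow₀ (by linarith)
        rw [h6]
        nlinarith
      have h8 : (l : ℝ) ^ 2 * n ^ 4 ≤ ((n : ℝ) - 1) ^ 2 * n ^ 4 :=
        mul_le_mul_of_nonneg_right h3 (by positivity)
      linarith

lemma one_sub_sum_le_prod {ι : Type*} (s : Finset ι) (f : ι → ℝ) (h0 : ∀ k ∈ s, 0 ≤ f k)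
    (h1 : ∀ k ∈ s, f k ≤ 1) : 1 - ∑ k ∈ s, f k ≤ ∏ k ∈ s, (1 - f k) := by
  classical
  induction s using Finset.induction_on with
  | empty => simp
  | insert a s ha ih =>
    rw [Finset.sum_insert ha, Finset.prod_insert ha]
    have e1 := ih (fun k hk => h0 k (Finset.mem_insert_of_mem hk))
      (fun k hk => h1 k (Finset.mem_insert_of_mem hk))
    have e2 := h0 a (Finset.mem_insert_self a s)
    have e3 := h1 a (Finset.mem_insert_self a s)
    have e4 : 0 ≤ ∑ k ∈ s, f k :=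
      Finset.sum_nonneg fun k hk => h0 k (Finset.mem_insert_of_mem hk)
    have e5 : (1 - f a) * (1 - ∑ k ∈ s, f k) ≤ (1 - f a) * ∏ k ∈ s, (1 - f k) :=
      mul_le_mul_of_nonneg_left e1 (by linarith)
    nlinarith

/-- The Blaschke product is bounded away from `0` at `16 i`. -/
lemma blaschke_lower {ι : Type*} (s : Finset ι) (w : ι → ℂ) (hw : ∀ k ∈ s, 0 < (w k).im)
    (hw1 : ∀ k ∈ s, (w k).im ≤ 1) (hsum : ∑ k ∈ s, (w k).im ≤ 3) :
    (1 / 4 : ℝ) * ‖Bfun s w (16 * I)‖ ^ 2 ≤ ‖Afun s w (16 * I)‖ ^ 2 := by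
  unfold Afun Bfun
  rw [norm_prod, norm_prod, ← Finset.prod_pow, ← Finset.prod_pow]
  have h1 : ∀ k ∈ s, (1 - (w k).im / 4) * ‖16 * I - conj (w k)‖ ^ 2 ≤ ‖16 * I - w k‖ ^ 2 := by
    intro k hk
    have e1 := norm_sub_sq_diff (16 * I) (w k)
    have e2 : (16 * I : ℂ).im = 16 := by simp
    rw [e2] at e1
    have e3 : (16 : ℝ) ^ 2 ≤ ‖16 * I - conj (w k)‖ ^ 2 := by
      apply pow_le_pow_left₀ (by norm_num)
      have : |(16 * I - conj (w k)).im| ≤ ‖16 * I - conj (w k)‖ := Complex.abs_im_le_norm _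
      refine le_trans ?_ this
      have e4 : (16 * I - conj (w k)).im = 16 + (w k).im := by simp
      rw [e4]
      exact le_trans (by linarith [hw k hk]) (le_abs_self _)
    have e5 := hw k hk
    nlinarith
  have h2 : ∏ k ∈ s, ((1 - (w k).im / 4) * ‖16 * I - conj (w k)‖ ^ 2) ≤
      ∏ k ∈ s, ‖16 * I - w k‖ ^ 2 := by
    refine Finset.prod_le_prod (fun k hk => ?_) h1
    have := hw1 k hk
    have : 0 ≤ 1 - (w k).im / 4 := by linarith
    positivity
  rw [Finset.prod_mul_distrib] at h2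
  refine le_trans ?_ h2
  apply mul_le_mul_of_nonneg_right _ (Finset.prod_nonneg fun k _ => by positivity)
  have h3 := one_sub_sum_le_prod s (fun k => (w k).im / 4) (fun k hk => by
    have := hw k hk; positivity) (fun k hk => by have := hw1 k hk; linarith)
  rw [← Finset.sum_div] at h3
  refine le_trans ?_ h3
  linarith

/-- The value at `16 i` stays away from `a ± b i`. -/
lemma nondeg {ι : Type*} (s : Finset ι) (w : ι → ℂ) (a b : ℝ) (hb : 0 < b) (hs : s.Nonempty)
    (hw : ∀ k ∈ s, 0 < (w k).im)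
    (hw1 : ∀ k ∈ s, (w k).im ≤ 1) (hsum : ∑ k ∈ s, (w k).im ≤ 3) :
    b / 2 ≤ ‖mfun s w a b (16 * I) - (a + b * I)‖ ∧
    b / 2 ≤ ‖mfun s w a b (16 * I) - (a - b * I)‖ := by
  have h1 := blaschke_lower s w hw hw1 hsum
  have h2 := AB_upper s w hs hw (16 * I) (by simp)
  have hne : Bfun s w (16 * I) - Afun s w (16 * I) ≠ 0 := by
    intro h0
    rw [sub_eq_zero] at h0
    rw [h0] at h2
    exact lt_irrefl _ h2
  have hB : 0 < ‖Bfun s w (16 * I)‖ := lt_of_le_of_lt (norm_nonneg _) h2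
  have h4 : (1 / 2 : ℝ) * ‖Bfun s w (16 * I)‖ ≤ ‖Afun s w (16 * I)‖ := by
    refine (pow_le_pow_iff_left₀ (by positivity) (norm_nonneg _) (two_ne_zero)).mp ?_
    rw [mul_pow]
    linarith
  have h5 : ‖Bfun s w (16 * I) - Afun s w (16 * I)‖ ≤ 2 * ‖Bfun s w (16 * I)‖ := by
    have := norm_sub_le (Bfun s w (16 * I)) (Afun s w (16 * I))
    linarith
  have h6 : 0 < ‖Bfun s w (16 * I) - Afun s w (16 * I)‖ := norm_pos_iff.mpr hne
  have hbn : ‖(b : ℂ)‖ = b := by rw [Complex.norm_real, Real.norm_of_nonneg hb.le]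
  constructor
  · rw [numEq_upper s w a b _ hne, norm_div, norm_mul, norm_mul, norm_mul, Complex.norm_I, hbn,
      le_div_iff₀ h6]
    simp
    nlinarith
  · rw [numEq_lower s w a b _ hne, norm_div, norm_mul, norm_mul, norm_mul, Complex.norm_I, hbn,
      le_div_iff₀ h6]
    have : Afun s (fun k => conj (w k)) (16 * I) = Bfun s w (16 * I) := rfl
    rw [this]
    simp
    nlinarith

lemma pts_im_le_one (n : ℕ) (hn : 2 ≤ n) (k : ℕ ⊕ ℤ) : (pts n k).im ≤ 1 := by
  have hn' : (2 : ℝ) ≤ n := by exact_mod_cast hn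
  rcases k with k | l
  · simp only [pts, Sum.elim_inl]
    exact pow_le_one₀ (by norm_num) (by norm_num)
  · simp only [pts, Sum.elim_inr]
    rw [div_le_one (by positivity)]
    exact one_le_pow₀ (by linarith)

lemma pts_im_sum (p n : ℕ) (hn : 2 ≤ n) : ∑ k ∈ idx p n, (pts n k).im ≤ 3 := by
  have hn' : (2 : ℝ) ≤ n := by exact_mod_cast hn
  unfold idx pts
  rw [Finset.sum_disjSum]
  simp only [Sum.elim_inl, Sum.elim_inr]
  rw [Finset.sum_const, nsmul_eq_mul, Int.card_Icc]
  have h5 : ((((n : ℤ) ^ 2 + 1 - -(n : ℤ) ^ 2).toNat : ℕ) : ℝ) = 2 * (n : ℝ) ^ 2 + 1 := by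
    have h6 : (0 : ℤ) ≤ (n : ℤ) ^ 2 + 1 - -(n : ℤ) ^ 2 := by
      have : 0 ≤ (n : ℤ) ^ 2 := by positivity
      omega
    have : ((((n : ℤ) ^ 2 + 1 - -(n : ℤ) ^ 2).toNat : ℤ) : ℝ) = 2 * (n : ℝ) ^ 2 + 1 := by
      rw [Int.toNat_of_nonneg h6]; push_cast; ring
    exact_mod_cast this
  rw [h5]
  have h1 : ∑ k ∈ Finset.range p, (1 / 2 : ℝ) ^ (k + 1) ≤ 1 := by
    have : ∑ k ∈ Finset.range p, (1 / 2 : ℝ) ^ (k + 1) = 1 - (1 / 2) ^ p := by
      induction p with
      | zero => simp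
      | succ p ih => rw [Finset.sum_range_succ, ih]; ring
    rw [this]
    have : (0 : ℝ) < (1 / 2) ^ p := by positivity
    linarith
  have h2 : (2 * (n : ℝ) ^ 2 + 1) * (1 / (n : ℝ) ^ 3) ≤ 2 := by
    rw [mul_one_div, div_le_iff₀ (by positivity)]
    have : (n : ℝ) ^ 3 = n ^ 2 * n := by ring
    nlinarith [sq_nonneg ((n : ℝ))]
  linarith

/-- The grid parameter: at least `j + 2`, and alternating between `j + 2` and `2 (j + 2)`. -/
def grid (j : ℕ) : ℕ := (j + 2) * (1 + j % 2)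

lemma le_grid (j : ℕ) : j + 2 ≤ grid j := by
  unfold grid
  nlinarith [Nat.zero_le (j % 2)]

lemma two_le_grid (j : ℕ) : 2 ≤ grid j := le_trans (by omega) (le_grid j)

/-- The sequence of Nevanlinna functions. -/
noncomputable def mseq (a b : ℝ) (j : ℕ) : ℂ → ℂ := mfun (idx j (grid j)) (pts (grid j)) a b

lemma pts_pos (j : ℕ) : ∀ k ∈ idx j (grid j), 0 < (pts (grid j) k).im := fun k _ =>
  pts_im_pos _ (by have := two_le_grid j; omega) k

lemma zero_lower (a b : ℝ) (hb : 0 < b) (c : ℂ) (hc : c = a + b * I ∨ c = a - b * I) (j : ℕ) :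
    j + (2 * grid j - 1) ≤ zeroCount (fun y => mseq a b j y - c) (Metric.ball 0 1) := by
  classical
  have hcard := zero_card_lower j (grid j) (two_le_grid j)
  rcases hc with rfl | rfl
  · unfold mseq
    rw [zeroCount_eq _ _ a b hb (idx_nonempty _ _) (pts_pos j) _ (pts (grid j))
      (fun k hk => (pts_pos j k hk).ne') (numEq_upper _ _ a b)]
    exact hcard
  · unfold mseq
    rw [zeroCount_eq _ _ a b hb (idx_nonempty _ _) (pts_pos j) _ (fun k => conj (pts (grid j) k))
      (fun k hk => by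
        have := pts_pos j k hk
        rw [Complex.conj_im]
        exact neg_ne_zero.mpr this.ne') (numEq_lower _ _ a b)]
    refine hcard.trans (le_of_eq ?_)
    congr 1
    refine Finset.filter_congr fun k _ => ?_
    rw [mem_ball_zero_iff, mem_ball_zero_iff, Complex.norm_conj]

end specific

/-- For every non-real constant `c` there is a sequence of Nevanlinna functions whose numbers of
poles in every real interval tend to infinity, which stays away from `c` at the point `16 i`, and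
for which the number of zeros of `m j - c` in the unit disc minus the number of poles of `m j` in
the unit disc tends to infinity. -/
theorem unbounded_difference :
    ∀ c : ℂ, c.im ≠ 0 → ∃ m : ℕ → ℂ → ℂ,
      (∀ j, IsNevanlinna (m j)) ∧
      (∀ u v : ℝ, u < v → Tendsto (fun j => {x : ℝ | x ∈ Set.Ioo u v ∧
          meromorphicOrderAt (m j) (x : ℂ) < 0}.ncard) atTop atTop) ∧
      (∀ j, {z : ℂ | meromorphicOrderAt (m j) z < 0}.Finite ∧
        {z : ℂ | 0 < meromorphicOrderAt (fun y => m j y - c) z}.Finite) ∧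
      (∃ ε : ℝ, 0 < ε ∧ ∀ j, ε ≤ ‖m j (16 * I) - c‖) ∧
      Tendsto (fun j => (zeroCount (fun y => m j y - c) (Metric.ball 0 1) : ℤ) -
          (poleCount (m j) (Metric.ball 0 1) : ℤ)) atTop atTop := by
  classical
  intro c hc
  obtain ⟨a, b, hb, hcab⟩ : ∃ a b : ℝ, 0 < b ∧ (c = a + b * I ∨ c = a - b * I) := by
    rcases lt_or_gt_of_ne hc with h | h
    · refine ⟨c.re, -c.im, by linarith, Or.inr ?_⟩
      apply Complex.ext <;> simp
    · refine ⟨c.re, c.im, h, Or.inl ?_⟩
      apply Complex.ext <;> simp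
  refine ⟨mseq a b, ?_, ?_, ?_, ?_, ?_⟩
  · intro j
    exact ⟨mfun_NF _ _ a b hb (idx_nonempty _ _) (pts_pos j),
      fun z hz => mfun_im_upper _ _ a b hb (idx_nonempty _ _) (pts_pos j) z hz,
      fun z hz => mfun_im_lower _ _ a b hb (idx_nonempty _ _) (pts_pos j) z hz⟩
  · intro u v huv
    have hset : ∀ j, {x : ℝ | x ∈ Set.Ioo u v ∧ meromorphicOrderAt (mseq a b j) (x : ℂ) < 0} =
        realPoles (idx j (grid j)) (pts (grid j)) u v := by
      intro j
      ext x
      simp only [Set.mem_ofPred_eq, realPoles, mseq]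
      rw [mfun_order_neg_iff _ _ a b hb (idx_nonempty _ _) (pts_pos j)]
    simp only [hset]
    have hreal : Tendsto (fun j : ℕ => ((grid j : ℝ) * ((v - u) / 2) - 1) / 2 - 1) atTop atTop := by
      have h1 : Tendsto (fun j : ℕ => (grid j : ℝ)) atTop atTop := by
        refine tendsto_atTop_mono (fun j => ?_) tendsto_natCast_atTop_atTop
        exact_mod_cast (le_trans (by omega) (le_grid j))
      have h2 : Tendsto (fun j : ℕ => (grid j : ℝ) * ((v - u) / 2)) atTop atTop :=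
        h1.atTop_mul_const (by linarith)
      exact tendsto_atTop_add_const_right _ _
        ((tendsto_atTop_add_const_right _ _ h2).atTop_div_const (by norm_num))
    rw [← tendsto_natCast_atTop_iff (R := ℝ)]
    refine tendsto_atTop_mono' _ ?_ hreal
    have hg : Tendsto (fun j : ℕ => (grid j : ℝ)) atTop atTop := by
      refine tendsto_atTop_mono (fun j => ?_) tendsto_natCast_atTop_atTop
      exact_mod_cast (le_trans (by omega) (le_grid j))
    filter_upwards [hg.eventually_ge_atTop (-u), hg.eventually_ge_atTop v,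
      hg.eventually_ge_atTop (4 / (v - u))] with j h1 h2 h3
    have hg2 : (2 : ℝ) ≤ grid j := by exact_mod_cast two_le_grid j
    have h4 : 1 / (grid j : ℝ) ^ 3 ≤ (v - u) / 4 := by
      have h5 : 1 / (grid j : ℝ) ^ 3 ≤ 1 / (grid j : ℝ) := by
        apply one_div_le_one_div_of_le (by linarith)
        nlinarith [sq_nonneg (grid j : ℝ)]
      have h6 : 1 / (grid j : ℝ) ≤ (v - u) / 4 := by
        rw [div_le_iff₀ (by linarith)]
        rw [div_le_iff₀ (by linarith)] at h3
        nlinarith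
      linarith
    have h5 := Theta_lower j (grid j) (two_le_grid j) u v huv (by linarith) h2 h4
    have h6 := le_realPoles_ncard (idx j (grid j)) (pts (grid j)) (idx_nonempty _ _) (pts_pos j)
      u v huv.le
    refine le_trans ?_ h6
    have h7 : ((grid j : ℝ) * ((v - u) / 2) - 1) / 2 =
        Real.pi * ((grid j : ℝ) * ((v - u) / 2) - 1) / (2 * Real.pi) := by
      field_simp
    rw [h7]
    have := div_le_div_of_nonneg_right h5 (by positivity : (0 : ℝ) ≤ 2 * Real.pi)
    linarith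
  · intro j
    constructor
    · have hset : {z : ℂ | meromorphicOrderAt (mseq a b j) z < 0} =
          {z : ℂ | Afun (idx j (grid j)) (pts (grid j)) z =
            Bfun (idx j (grid j)) (pts (grid j)) z} := by
        ext z
        simp only [Set.mem_ofPred_eq, mseq]
        rw [mfun_order_neg_iff _ _ a b hb (idx_nonempty _ _) (pts_pos j)]
      rw [hset]
      exact allPoles_finite _ _ (idx_nonempty _ _) (pts_pos j)
    · rcases hcab with rfl | rfl
      · exact zero_set_finite _ _ a b hb (idx_nonempty _ _) (pts_pos j) _ _ (numEq_upper _ _ a b)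
      · exact zero_set_finite _ _ a b hb (idx_nonempty _ _) (pts_pos j) _ _ (numEq_lower _ _ a b)
  · refine ⟨b / 2, by positivity, fun j => ?_⟩
    have := nondeg (idx j (grid j)) (pts (grid j)) a b hb (idx_nonempty _ _) (pts_pos j)
      (fun k _ => pts_im_le_one _ (two_le_grid j) k) (pts_im_sum _ _ (two_le_grid j))
    rcases hcab with rfl | rfl
    · exact this.1
    · exact this.2
  · rw [← tendsto_intCast_atTop_iff (R := ℝ)]
    have hreal : Tendsto (fun j : ℕ => (j : ℝ) / 4 - 4) atTop atTop :=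
      tendsto_atTop_add_const_right _ _ (tendsto_natCast_atTop_atTop.atTop_div_const (by norm_num))
    refine tendsto_atTop_mono (fun j => ?_) hreal
    have h1 := zero_lower a b hb c hcab j
    have h2 : (poleCount (mseq a b j) (Metric.ball 0 1) : ℝ) ≤ 3 / 4 * j + (2 * grid j + 1) + 1 + 1 := by
      unfold mseq
      rw [poleCount_eq _ _ a b hb (idx_nonempty _ _) (pts_pos j)]
      have h3 := realPoles_ncard_le (idx j (grid j)) (pts (grid j)) (idx_nonempty _ _) (pts_pos j)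
        (-1) 1 (by norm_num)
      have h4 := Theta_bound j (grid j) (two_le_grid j)
      refine h3.trans ?_
      have h5 : (Theta (idx j (grid j)) (pts (grid j)) 1 -
          Theta (idx j (grid j)) (pts (grid j)) (-1)) / (2 * Real.pi) ≤
          3 / 4 * j + (2 * grid j + 1) + 1 := by
        rw [div_le_iff₀ (by positivity)]
        exact h4
      linarith
    have h3 : ((j + (2 * grid j - 1) : ℕ) : ℝ) ≤
        (zeroCount (fun y => mseq a b j y - c) (Metric.ball 0 1) : ℝ) := by exact_mod_cast h1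
    have h4 : ((j + (2 * grid j - 1) : ℕ) : ℝ) = j + (2 * grid j - 1) := by
      have := two_le_grid j
      rw [Nat.cast_add, Nat.cast_sub (by omega)]
      push_cast; ring
    rw [h4] at h3
    push_cast
    linarith

end Pool.Agent.Lib.MP_9bfa98_an
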