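import Mathlib

set_option autoImplicit false

namespace Pool.Agent.Lib.MP_9bfa98_an

/-- A Nevanlinna function: meromorphic on `ℂ` (in normal form: analytic away from its poles), with
positive imaginary part on the upper and negative imaginary part on the lower half-plane. -/
def IsNevanlinna (m : ℂ → ℂ) : Prop :=
  MeromorphicNFOn m Set.univ ∧ (∀ z : ℂ, 0 < z.im → 0 < (m z).im) ∧
    ∀ z : ℂ, z.im < 0 → (m z).im < 0

/-- The number of zeros of `f` in `U`, counted with multiplicity. -/
noncomputable def zeroCount (f : ℂ → ℂ) (U : Set ℂ) : ℕ :=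
  ∑ᶠ z ∈ U, (meromorphicOrderAt f z).untop₀.toNat

/-- The number of poles of `f` in `U`, counted with multiplicity. -/
noncomputable def poleCount (f : ℂ → ℂ) (U : Set ℂ) : ℕ :=
  ∑ᶠ z ∈ U, (-(meromorphicOrderAt f z).untop₀).toNat

end Pool.Agent.Lib.MP_9bfa98_an
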